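import Pool.Agent.Helper7.OV.Goals2

/-!
# Project OV, packet CTN (arithmetic)
-/

set_option autoImplicit false

namespace Pool.Agent.Helper4.OV.CTN

open Pool.Agent.Helper7.OV

/-- twice the number of equations -/
theorem two_meq (s t m b x y : ℕ) (hy : y = 2 * t - x) :
    2 * Meq s t m b x ≤ 6 * t * (m + 1) + y * y + 4 * t * (b + 1) + t * t + 5 * s * t + 3 * s + 6 * t +
      2 * x * (b + 1) := by
  unfold Meq
  rw [← hy]
  have h1 : 2 * (y * (y - 1) / 2) ≤ y * y :=
    (Nat.mul_div_le _ _).trans (Nat.mul_le_mul le_rfl (Nat.sub_le _ _))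
  have h2 : 2 * (t * (t - 1) / 2) ≤ t * t :=
    (Nat.mul_div_le _ _).trans (Nat.mul_le_mul le_rfl (Nat.sub_le _ _))
  have h3 : 2 * ((s * t + s + 2 * t) / 2) ≤ s * t + s + 2 * t := Nat.mul_div_le _ _
  nlinarith [h1, h2, h3]

/-- the first inequality when `s ≥ 2t` -/
theorem caseA (s t u v : ℤ) (ht : 225 ≤ t) (hs : 2 * t ≤ s) (hu : 66 * s + 200 * t ≤ 100 * u)
    (hv : 232 * t ≤ 100 * v) :
    541 * (6 * t * u + 4 * t * t + 4 * t * v + t * t + 5 * s * t + 3 * s + 6 * t) ≤ 3240 * (u * v) := by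
  have k1 : 0 ≤ (100 * u - (66 * s + 200 * t)) * (3240 * v - 3246 * t) := by
    apply mul_nonneg <;> linarith
  have k2 : 0 ≤ (100 * v - 232 * t) * (3240 * (66 * s + 200 * t) - 216400 * t) := by
    apply mul_nonneg <;> linarith
  have k3 : 0 ≤ (t - 225) * s := by
    apply mul_nonneg <;> linarith
  have k4 : 0 ≤ (t - 225) * t := by
    apply mul_nonneg <;> linarith
  nlinarith [k1, k2, k3, k4]

/-- the first inequality when `t ≤ s ≤ 2t` -/
theorem caseB (s t u v : ℤ) (ht : 225 ≤ t) (hs1 : t ≤ s) (hs : s ≤ 2 * t) (hu : 66 * s + 200 * t ≤ 100 * u)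
    (hv : 232 * t ≤ 100 * v) :
    541 * (6 * t * u + s * s + 4 * t * v + t * t + 5 * s * t + 3 * s + 6 * t + 2 * (2 * t - s) * v) ≤
      3240 * (u * v) := by
  have k1 : 0 ≤ (100 * u - (66 * s + 200 * t)) * (3240 * v - 3246 * t) := by
    apply mul_nonneg <;> linarith
  have k2 : 0 ≤ (100 * v - 232 * t) * (3240 * (66 * s + 200 * t) - 54100 * (8 * t - 2 * s)) := by
    apply mul_nonneg <;> linarith
  have k3 : 0 ≤ (s - t) * (2 * t - s) := by
    apply mul_nonneg <;> linarith
  have k4 : 0 ≤ (t - 225) * t := by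
    apply mul_nonneg <;> linarith
  have k5 : 0 ≤ (t - 225) * s := by
    apply mul_nonneg <;> linarith
  have k6 : 0 ≤ (s - t) * t := by
    apply mul_nonneg <;> linarith
  nlinarith [k1, k2, k3, k4, k5, k6]

theorem t : S_CTN := by
  intro s t m b x ht hts hm hb hx
  have hu1 : 66 * s + 200 * t ≤ 100 * (m + 1) := by omega
  have hu2 : 100 * (m + 1) ≤ 66 * s + 200 * t + 100 := by omega
  have hv1 : 232 * t ≤ 100 * (b + 1) := by omega
  have hv2 : 100 * (b + 1) ≤ 232 * t + 100 := by omega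
  have hM := two_meq s t m b x (2 * t - x) rfl
  have hpos : 0 < 3 * (m + 1) * (b + 1) := by positivity
  have main : 541 * (2 * Meq s t m b x) ≤ 3240 * ((m + 1) * (b + 1)) := by
    refine (Nat.mul_le_mul le_rfl hM).trans ?_
    rcases le_total (2 * t) s with h | h
    · have hx0 : x = 0 := by omega
      subst hx0
      have e := caseA (s : ℤ) t ((m + 1 : ℕ) : ℤ) ((b + 1 : ℕ) : ℤ) (by exact_mod_cast ht)
        (by exact_mod_cast h) (by exact_mod_cast hu1) (by exact_mod_cast hv1)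
      have e' : 541 * (6 * t * (m + 1) + 4 * t * t + 4 * t * (b + 1) + t * t + 5 * s * t + 3 * s + 6 * t) ≤
          3240 * ((m + 1) * (b + 1)) := by exact_mod_cast e
      refine le_trans (le_of_eq ?_) e'
      simp only [Nat.sub_zero]
      ring
    · have hxs : 2 * t - x = s := by omega
      rw [hxs]
      have hx2 : (x : ℤ) = 2 * (t : ℤ) - s := by omega
      have e := caseB (s : ℤ) t ((m + 1 : ℕ) : ℤ) ((b + 1 : ℕ) : ℤ) (by exact_mod_cast ht)
        (by exact_mod_cast hts) (by exact_mod_cast h) (by exact_mod_cast hu1) (by exact_mod_cast hv1)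
      rw [← hx2] at e
      exact_mod_cast e
  have h1 : 541 * Meq s t m b x ≤ 540 * (3 * (m + 1) * (b + 1)) := by
    nlinarith [main]
  refine ⟨h1, ?_, ?_⟩
  · omega
  · have hs225 : 225 ≤ s := ht.trans hts
    have a1 : 100 * (m + 1) ≤ 266 * s + 100 := by omega
    have a2 : (100 * (m + 1)) * (100 * (b + 1)) ≤ (266 * s + 100) * (232 * t + 100) := Nat.mul_le_mul a1 hv2
    have a3 : 225 * s ≤ s * t := by nlinarith
    have a4 : 225 * t ≤ s * t := by nlinarith
    nlinarith [a2, a3, a4]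

end Pool.Agent.Helper4.OV.CTN
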